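import Mathlib

open Finset

namespace Pool.Agent.Results.MP_b87ef1_co.ConjectureFalse

def Admissible {n : ℕ} (F : Finset (Finset (Fin n))) : Prop :=
  ¬ ∃ A ∈ F, ∃ B ∈ F, ∃ C ∈ F, A ≠ B ∧ A ≠ C ∧ B ≠ C ∧ (A ∪ B = C ∨ A ∩ B = C)

theorem facts {n : ℕ} {A B C : Finset (Fin n)} (h2 : A ≠ C) (h3 : B ≠ C) (z : Fin n)
    (h : A ∪ B = C ∨ A ∩ B = C) :
    (#A < #C ∧ #B < #C ∧ #C ≤ #A + #B ∧ (z ∈ C ↔ z ∈ A ∨ z ∈ B)) ∨
    (#C < #A ∧ #C < #B ∧ #A + #B ≤ n + #C ∧ (z ∈ C ↔ z ∈ A ∧ z ∈ B)) := by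
  rcases h with rfl | rfl
  · exact Or.inl ⟨card_lt_card (lt_of_le_of_ne subset_union_left h2),
      card_lt_card (lt_of_le_of_ne subset_union_right h3), card_union_le _ _, mem_union⟩
  · refine Or.inr ⟨card_lt_card (lt_of_le_of_ne inter_subset_left h2.symm),
      card_lt_card (lt_of_le_of_ne inter_subset_right h3.symm), ?_, mem_inter⟩
    have h1 := card_union_add_card_inter A B
    have h2 := card_le_univ (A ∪ B)
    rw [Fintype.card_fin] at h2
    omega

theorem even_case (k : ℕ) (hk : 2 ≤ k) : ∃ F : Finset (Finset (Fin (2 * k))),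
    Admissible F ∧ #F = (2 * k).choose k + 2 := by
  let z : Fin (2 * k) := ⟨0, by omega⟩
  let φ : Finset (Fin (2 * k)) → Finset (Fin (2 * k)) := fun A => symmDiff A {z}
  have hφ : Function.Injective φ := symmDiff_left_injective _
  let base := (powersetCard k univ).image φ
  have hbase : ∀ A ∈ base, (z ∈ A ∧ #A = k + 1) ∨ (z ∉ A ∧ #A + 1 = k) := by
    intro A hA
    obtain ⟨S, hS, rfl⟩ := mem_image.1 hA
    have hS' := (mem_powersetCard.1 hS).2
    by_cases hz : z ∈ S
    · have : φ S = S.erase z := by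
        ext x
        by_cases hx : x = z <;> simp [φ, mem_symmDiff, hx, hz]
      rw [this]
      exact Or.inr ⟨notMem_erase _ _, by rw [card_erase_add_one hz, hS']⟩
    · have : φ S = insert z S := by
        ext x
        by_cases hx : x = z <;> simp [φ, mem_symmDiff, hx, hz]
      rw [this]
      exact Or.inl ⟨mem_insert_self _ _, by rw [card_insert_of_notMem hz, hS']⟩
  have hE : #(univ.erase z) + 1 = 2 * k := by
    rw [card_erase_add_one (mem_univ z), card_univ, Fintype.card_fin]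
  have n2 : univ.erase z ∉ base := fun h => by
    rcases hbase _ h with h | h
    · exact notMem_erase _ _ h.1
    · omega
  have n1 : {z} ∉ insert (univ.erase z) base := fun h => by
    rcases mem_insert.1 h with h | h
    · exact notMem_erase z univ (h ▸ mem_singleton_self z)
    · rcases hbase _ h with h | h
      · rw [card_singleton] at h; omega
      · exact h.1 (mem_singleton_self z)
  refine ⟨insert {z} (insert (univ.erase z) base), ?_, ?_⟩
  · have ty : ∀ A ∈ insert {z} (insert (univ.erase z) base),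
        (z ∈ A ∧ (#A = k + 1 ∨ #A = 1)) ∨ (z ∉ A ∧ (#A + 1 = k ∨ #A + 1 = 2 * k)) := by
      intro A hA
      rcases mem_insert.1 hA with rfl | hA
      · exact Or.inl ⟨mem_singleton_self z, Or.inr (card_singleton z)⟩
      rcases mem_insert.1 hA with rfl | hA
      · exact Or.inr ⟨notMem_erase _ _, Or.inr hE⟩
      · rcases hbase A hA with h | h
        · exact Or.inl ⟨h.1, Or.inl h.2⟩
        · exact Or.inr ⟨h.1, Or.inl h.2⟩
    rintro ⟨A, hA, B, hB, C, hC, -, h2, h3, h⟩
    rcases ty A hA with ⟨a1, a2⟩ | ⟨a1, a2⟩ <;> rcases ty B hB with ⟨b1, b2⟩ | ⟨b1, b2⟩ <;>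
      rcases ty C hC with ⟨c1, c2⟩ | ⟨c1, c2⟩ <;>
      rcases facts h2 h3 z h with ⟨f1, f2, f3, f4⟩ | ⟨f1, f2, f3, f4⟩ <;>
      first | omega | tauto
  · rw [card_insert_of_notMem n1, card_insert_of_notMem n2, card_image_of_injective _ hφ,
      card_powersetCard, card_univ, Fintype.card_fin]

theorem seven : ∃ F : Finset (Finset (Fin 7)), Admissible F ∧ #F = 42 := by
  refine ⟨powersetCard 2 univ ∪ powersetCard 5 univ, ?_, ?_⟩
  · rintro ⟨A, hA, B, hB, C, hC, -, h2, h3, h⟩
    simp only [mem_union, mem_powersetCard, subset_univ, true_and] at hA hB hC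
    rcases facts h2 h3 0 h with ⟨f1, f2, f3, -⟩ | ⟨f1, f2, f3, -⟩ <;> omega
  · rw [card_union_of_disjoint, card_powersetCard, card_powersetCard, card_univ, Fintype.card_fin]
    · rfl
    · rw [disjoint_left]
      intro A h1 h2
      have := (mem_powersetCard.1 h1).2
      have := (mem_powersetCard.1 h2).2
      omega

theorem result :
    (∀ n : ℕ, 4 ≤ n → Even n →
      ∃ F : Finset (Finset (Fin n)), Admissible F ∧ #F = n.choose (n / 2) + 2) ∧
    (∃ F : Finset (Finset (Fin 7)), Admissible F ∧ #F = 42) := by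
  refine ⟨?_, seven⟩
  rintro n hn ⟨k, rfl⟩
  obtain ⟨m, hm⟩ : ∃ m, m = k + k := ⟨_, rfl⟩
  rw [← hm]
  obtain rfl : m = 2 * k := by omega
  rw [show 2 * k / 2 = k by omega]
  exact even_case k (by omega)

end Pool.Agent.Results.MP_b87ef1_co.ConjectureFalse
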